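import Pool.Agent.Q331.RT.Basic

/-!
# Aggregation queries on R-trees can cost `Ω(N / B)`

The objects are `N` disjoint unit cubes in a row, and the query box covers all of them except for
their lower halves.  The bounding box of every set of objects meets the query box and is not
contained in it, so that every node of every R-tree is visited.
-/

open Finset Pool.Agent.Q331.RT

namespace Pool.Agent.Results.MP_4b5396_lc.AggregationLinear

theorem objs_nonempty {ι : Type} [DecidableEq ι] {a b : ℝ} (ha : 0 < a) {h : ℕ} {T : Tree ι h}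
    (hT : Occ a b T) : (objs T).Nonempty := by
  induction T with
  | leaf s =>
    have h1 : a ≤ s.card := hT.1
    have h2 : (0 : ℝ) < s.card := ha.trans_le h1
    exact Finset.card_pos.1 (by exact_mod_cast h2)
  | node m f ih =>
    have h1 : a ≤ m := hT.1
    have h2 : (0 : ℝ) < m := ha.trans_le h1
    have h3 : 0 < m := by exact_mod_cast h2
    obtain ⟨i, hi⟩ := ih ⟨0, h3⟩ (hT.2.2 _)
    exact ⟨i, mem_biUnion.2 ⟨_, mem_univ _, hi⟩⟩

/-- If all bounding boxes meet `Q` and are not contained in `Q`, all nodes are visited. -/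
theorem nleaf_le_sub {ι : Type} [DecidableEq ι] {d : ℕ} {S : ι → Box d} {Q : Box d}
    (hQ : ∀ X : Finset ι, X.Nonempty →
      ¬ (bbox S X ∩ Q.pts = ∅ ∨ bbox S X ⊆ Q.pts)) {a b : ℝ} (ha : 0 < a) {h : ℕ} {T : Tree ι h}
    (hT : Occ a b T) : nleaf T ≤ aggCost S Q T := by
  induction T with
  | leaf s => exact le_rfl
  | node m f ih =>
    have : ∑ j, nleaf (f j) ≤ 1 + ∑ j, aggCost S Q (f j) := by
      have := Finset.sum_le_sum fun j (_ : j ∈ (univ : Finset (Fin m))) => ih j (hT.2.2 j)
      omega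
    refine this.trans (le_of_eq ?_)
    simp only [aggCost]
    congr 1
    exact Finset.sum_congr rfl fun j _ => (if_neg (hQ _ (objs_nonempty ha (hT.2.2 j)))).symm

theorem nleaf_le {ι : Type} [DecidableEq ι] {d : ℕ} {S : ι → Box d} {Q : Box d}
    (hQ : ∀ X : Finset ι, X.Nonempty →
      ¬ (bbox S X ∩ Q.pts = ∅ ∨ bbox S X ⊆ Q.pts)) {a b : ℝ} (ha : 0 < a) {h : ℕ} {T : Tree ι h}
    (hT : IsRTree a b T) : nleaf T ≤ aggCost S Q T := by
  cases T with
  | leaf s => exact le_rfl
  | node m f =>
    have : ∑ j, nleaf (f j) ≤ 1 + ∑ j, aggCost S Q (f j) := by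
      have := Finset.sum_le_sum fun j (_ : j ∈ (univ : Finset (Fin m))) =>
        nleaf_le_sub hQ ha (hT.2.2 j)
      omega
    refine this.trans (le_of_eq ?_)
    simp only [aggCost]
    congr 1
    exact Finset.sum_congr rfl fun j _ => (if_neg (hQ _ (objs_nonempty ha (hT.2.2 j)))).symm

theorem main (d : ℕ) (hd : 2 ≤ d) (N : ℕ) : ∃ (S : Fin N → Box d) (Q : Box d),
    (∀ i k, (S i).hi k - (S i).lo k = 1) ∧ (∀ i j, i ≠ j → Disjoint (S i).pts (S j).pts) ∧
    (∀ k, Q.lo k < Q.hi k) ∧ ∀ a b : ℝ, 0 < a → ∀ (h : ℕ) (T : Tree (Fin N) h),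
      IsRTree a b T → (N : ℝ) ≤ b * aggCost S Q T := by
  have h0 : 0 < d := by omega
  have h1 : 1 < d := by omega
  let z : Fin d := ⟨0, h0⟩
  let o : Fin d := ⟨1, h1⟩
  have hzo : o ≠ z := by simp [z, o]
  let S : Fin N → Box d := fun i =>
    { lo := fun k => if k = z then 2 * (i : ℝ) else 0
      hi := fun k => (if k = z then 2 * (i : ℝ) else 0) + 1
      le := fun k => by linarith }
  let Q : Box d :=
    { lo := fun k => if k = z then -1 else 1 / 2
      hi := fun k => if k = z then 2 * N + 1 else 2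
      le := fun k => by
        split_ifs
        · have : (0 : ℝ) ≤ N := Nat.cast_nonneg _
          linarith
        · norm_num }
  refine ⟨S, Q, fun i k => by simp [S], ?_, ?_, ?_⟩
  · intro i j hij
    rw [Set.disjoint_left]
    intro x hx hy
    have e1 := hx z
    have e2 := hy z
    simp only [S, if_true] at e1 e2
    rcases lt_or_gt_of_ne hij with h | h
    · have : (i : ℝ) + 1 ≤ j := by exact_mod_cast h
      linarith [e1.2, e2.1]
    · have : (j : ℝ) + 1 ≤ i := by exact_mod_cast h
      linarith [e1.1, e2.2]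
  · intro k
    simp only [Q]
    split_ifs
    · have : (0 : ℝ) ≤ N := Nat.cast_nonneg _
      linarith
    · norm_num
  · intro a b ha h T hT
    have hQ : ∀ X : Finset (Fin N), X.Nonempty →
        ¬ (bbox S X ∩ Q.pts = ∅ ∨ bbox S X ⊆ Q.pts) := by
      rintro X ⟨i, hi⟩
      have hiN : (i : ℝ) + 1 ≤ N := by exact_mod_cast i.2
      have hi0 : (0 : ℝ) ≤ (i : ℝ) := Nat.cast_nonneg _
      push Not
      constructor
      · refine ⟨fun k => if k = z then 2 * (i : ℝ) else 1 / 2, ?_, ?_⟩
        · intro k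
          refine ⟨⟨i, hi, ?_⟩, i, hi, ?_⟩
          · simp only [S]; split_ifs <;> norm_num
          · simp only [S]; split_ifs <;> norm_num
        · intro k
          simp only [Q]
          split_ifs
          · constructor <;> linarith
          · constructor <;> norm_num
      · intro hsub
        have hmem : (S i).lo ∈ bbox S X := fun k => ⟨⟨i, hi, le_rfl⟩, i, hi, (S i).le k⟩
        have := (hsub hmem o).1
        simp only [S, Q, hzo, if_false] at this
        norm_num at this
    have h2 := hT.card_le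
    rw [Fintype.card_fin] at h2
    rcases Nat.eq_zero_or_pos (nleaf T) with h3 | h3
    · rw [h3] at h2
      have hN : (N : ℝ) ≤ 0 := by simpa using h2
      have hN' : N = 0 := by
        have : (N : ℝ) = 0 := le_antisymm hN (Nat.cast_nonneg _)
        exact_mod_cast this
      subst hN'
      cases T with
      | leaf s =>
        have : (0 : ℝ) ≤ b := le_trans (Nat.cast_nonneg _) hT.2
        simp only [Nat.cast_zero]
        positivity
      | node m f =>
        have : (0 : ℝ) ≤ b := le_trans (Nat.cast_nonneg _) hT.2.1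
        simp only [Nat.cast_zero]
        positivity
    · have hb : 0 ≤ b := by
        cases T with
        | leaf s => exact le_trans (Nat.cast_nonneg _) hT.2
        | node m f => exact le_trans (Nat.cast_nonneg _) hT.2.1
      refine h2.trans ?_
      have := nleaf_le hQ ha hT
      gcongr

/-- **Aggregation queries on R-trees are expensive.**  (1) For all `d ≥ 2` and `N` there are `N`
pairwise disjoint unit cubes in `ℝ ^ d` and a full-dimensional box `Q` such that the aggregation
query with `Q` visits at least `N / b` nodes of every R-tree on these cubes whose leaves have at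
most `b` objects.  (2) Hence for all `d ≥ 2`, all positive constants `a₁`, `a₂`, `C` and every block
size `B ≥ 1` there are `N` and a set of `N` cubes such that every R-tree with at least `a₁ B` and at
most `a₂ B` objects (children) per node has an aggregation query with cost more than
`C (N / B) ^ (1 - 1 / d)`. -/
theorem result :
    (∀ d : ℕ, 2 ≤ d → ∀ N : ℕ, ∃ (S : Fin N → Box d) (Q : Box d),
      (∀ i k, (S i).hi k - (S i).lo k = 1) ∧ (∀ i j, i ≠ j → Disjoint (S i).pts (S j).pts) ∧
      (∀ k, Q.lo k < Q.hi k) ∧ ∀ a b : ℝ, 0 < a → ∀ (h : ℕ) (T : Tree (Fin N) h),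
        IsRTree a b T → (N : ℝ) ≤ b * aggCost S Q T) ∧
    (∀ d : ℕ, 2 ≤ d → ∀ a₁ a₂ C : ℝ, 0 < a₁ → 0 < a₂ → 0 < C → ∀ B : ℕ, 1 ≤ B →
      ∃ (N : ℕ) (S : Fin N → Box d), (∀ i k, (S i).hi k - (S i).lo k = 1) ∧
        (∀ i j, i ≠ j → Disjoint (S i).pts (S j).pts) ∧
        ∀ (h : ℕ) (T : Tree (Fin N) h), IsRTree (a₁ * B) (a₂ * B) T →
          ∃ Q : Box d, C * ((N : ℝ) / B) ^ (1 - 1 / (d : ℝ)) < aggCost S Q T) := by
  refine ⟨main, ?_⟩
  intro d hd a₁ a₂ C ha₁ ha₂ hC B hB
  have hB0 : (0 : ℝ) < B := by exact_mod_cast hB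
  have hd0 : (0 : ℝ) < d := by
    have : 0 < d := by omega
    exact_mod_cast this
  obtain ⟨N, hN⟩ := exists_nat_gt ((B : ℝ) * ((C * a₂) ^ (d : ℝ)))
  obtain ⟨S, Q, h1, h2, -, h3⟩ := main d hd N
  refine ⟨N, S, h1, h2, fun h T hT => ⟨Q, ?_⟩⟩
  have h4 := h3 _ _ (by positivity) h T hT
  set x : ℝ := (N : ℝ) / B with hx
  have hx1 : (C * a₂) ^ (d : ℝ) < x := by
    rw [hx, lt_div_iff₀ hB0]
    linarith
  have hx0 : 0 < x := lt_of_le_of_lt (by positivity) hx1
  have hx2 : C * a₂ < x ^ (1 / (d : ℝ)) := by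
    have h5 := Real.rpow_lt_rpow (z := 1 / (d : ℝ)) (by positivity) hx1 (by positivity)
    rwa [← Real.rpow_mul (by positivity), mul_one_div_cancel hd0.ne', Real.rpow_one] at h5
  have hx3 : x ^ (1 - 1 / (d : ℝ)) * x ^ (1 / (d : ℝ)) = x := by
    rw [← Real.rpow_add hx0]
    simp
  have hx4 : 0 < x ^ (1 - 1 / (d : ℝ)) := Real.rpow_pos_of_pos hx0 _
  have h6 : x ≤ a₂ * aggCost S Q T := by
    rw [hx, div_le_iff₀ hB0]
    calc (N : ℝ) ≤ a₂ * B * aggCost S Q T := h4
      _ = a₂ * aggCost S Q T * B := by ring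
  have h7 : a₂ * (C * x ^ (1 - 1 / (d : ℝ))) < a₂ * aggCost S Q T := by
    calc a₂ * (C * x ^ (1 - 1 / (d : ℝ))) = x ^ (1 - 1 / (d : ℝ)) * (C * a₂) := by ring
      _ < x ^ (1 - 1 / (d : ℝ)) * x ^ (1 / (d : ℝ)) := by gcongr
      _ = x := hx3
      _ ≤ _ := h6
  exact lt_of_mul_lt_mul_left h7 ha₂.le

end Pool.Agent.Results.MP_4b5396_lc.AggregationLinear
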